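import Pool.Agent.Lib_helper58.Orbi.Main

/-!
# The orbifold Mordell conjecture for the projective line: reduction to four signatures

The definitions are in `Pool/Agent/Lib_helper58/Orbi/Defs.lean`.
-/

open NumberField IsDedekindDomain OrbiP1

namespace Pool.Agent.Results.MP_1b1965_nt.FourSignatures

/-- Campana's orbifold Mordell conjecture for the projective line (all number fields, all finite
sets of exceptional places, all orbifold divisors of general type) holds if and only if it holds,
with no exceptional places, for the four families of divisors of signature `(2,3,7)`, `(2,4,5)`,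
`(2,2,2,3)` and `(2,2,2,2,2)`, three of whose points are `0, 1, ∞`. -/
theorem result : OrbifoldMordell ↔ ∀ (k : Type) [Field k] [NumberField k],
    (orbPoints (∅ : Set (HeightOneSpectrum (𝓞 k))) ![pt 0, pt 1, inf] ![2, 3, 7]).Finite ∧
    (orbPoints (∅ : Set (HeightOneSpectrum (𝓞 k))) ![pt 0, pt 1, inf] ![2, 4, 5]).Finite ∧
    (∀ a : k, a ≠ 0 → a ≠ 1 → (orbPoints (∅ : Set (HeightOneSpectrum (𝓞 k)))
      ![pt 0, pt 1, inf, pt a] ![2, 2, 2, 3]).Finite) ∧
    (∀ a b : k, a ≠ 0 → a ≠ 1 → b ≠ 0 → b ≠ 1 → a ≠ b →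
      (orbPoints (∅ : Set (HeightOneSpectrum (𝓞 k)))
        ![pt 0, pt 1, inf, pt a, pt b] ![2, 2, 2, 2, 2]).Finite) :=
  orbifoldMordell_iff

end Pool.Agent.Results.MP_1b1965_nt.FourSignatures
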